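import Pool.Agent.W593.ZT.Stm
import Pool.Agent.Helper730.Kneser

/-!
# Project ZT: covering lemmas (COMP, K2, C3)
-/

set_option autoImplicit false

open scoped Classical Pointwise

namespace Pool.Agent.W509.ZT

open Pool.Agent.W593.ZT Pool.Agent.Helper730.Kneser

theorem comp : S_COMP := by
  intro V G _ S0 S1 S2 Z1 Z2 A1 A2 h12 hd hA1 hA2 hC1 hC2 r0 hr0 s hs
  have hn : ∀ z ∈ Z2, z ∉ Z1 := fun z hz hz1 => Finset.disjoint_left.1 hd hz1 hz
  have hr1 : ∀ z ∈ Z1, r0 z ∈ A1 z := fun z hz => by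
    have := hr0 z (Finset.mem_union_left _ hz)
    simpa [hz] using this
  have hr2 : ∀ z ∈ Z2, r0 z ∈ A2 z := fun z hz => by
    have := hr0 z (Finset.mem_union_right _ hz)
    simpa [hn z hz] using this
  rw [Finset.sum_union hd] at hs
  obtain ⟨_, ⟨r2, hr2', rfl⟩, h2⟩ := hC2 r0 hr2 (s - ∑ z ∈ Z1, r0 z) (by
    rw [sub_sub]
    exact hs)
  obtain ⟨_, ⟨r1, hr1', rfl⟩, h1⟩ := hC1 r0 hr1 (s - ∑ z ∈ Z2, r2 z) (by
    rw [sub_right_comm]
    exact h2)
  refine ⟨_, ⟨fun z => if z ∈ Z1 then r1 z else r2 z, ?_, rfl⟩, ?_⟩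
  · intro z hz
    by_cases hz1 : z ∈ Z1
    · simp only [hz1, if_true]
      exact hr1' z hz1
    · simp only [hz1, if_false]
      exact hr2' z ((Finset.mem_union.1 hz).resolve_left hz1)
  · rw [Finset.sum_union hd]
    have e1 : ∑ z ∈ Z1, (if z ∈ Z1 then r1 z else r2 z) = ∑ z ∈ Z1, r1 z :=
      Finset.sum_congr rfl fun z hz => by simp [hz]
    have e2 : ∑ z ∈ Z2, (if z ∈ Z1 then r1 z else r2 z) = ∑ z ∈ Z2, r2 z :=
      Finset.sum_congr rfl fun z hz => by simp [hn z hz]
    rw [e1, e2, add_comm, ← sub_sub]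
    exact h1

section Kn

variable {V G : Type} [AddCommGroup G] [Fintype G]

theorem mem_sum (Z : Finset V) (B : V → Finset G) (x : G) :
    x ∈ ∑ z ∈ Z, B z ↔ ∃ r : V → G, (∀ z ∈ Z, r z ∈ B z) ∧ x = ∑ z ∈ Z, r z := by
  induction Z using Finset.induction_on generalizing x with
  | empty =>
    simp
  | insert z0 Z hz0 ih =>
    rw [Finset.sum_insert hz0, Finset.mem_add]
    constructor
    · rintro ⟨y, hy, w, hw, rfl⟩
      obtain ⟨r, hr, rfl⟩ := (ih w).1 hw
      refine ⟨Function.update r z0 y, ?_, ?_⟩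
      · intro z hz
        rcases Finset.mem_insert.1 hz with h | h
        · subst h
          simpa using hy
        · have : z ≠ z0 := fun h' => hz0 (h' ▸ h)
          rw [Function.update_of_ne this]
          exact hr z h
      · rw [Finset.sum_insert hz0, Function.update_self]
        congr 1
        refine Finset.sum_congr rfl fun z hz => ?_
        have : z ≠ z0 := fun h' => hz0 (h' ▸ hz)
        rw [Function.update_of_ne this]
    · rintro ⟨r, hr, rfl⟩
      rw [Finset.sum_insert hz0]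
      exact ⟨r z0, hr z0 (Finset.mem_insert_self _ _), _,
        (ih _).2 ⟨r, fun z hz => hr z (Finset.mem_insert_of_mem hz), rfl⟩, rfl⟩

/-- number of cosets times size -/
theorem card_add_fs (K : AddSubgroup G) (B : Finset G) :
    (B + fs K).card = ncl K B * (fs K).card := by
  have h1 := Finset.card_eq_sum_card_fiberwise
    (f := fun x => (QuotientAddGroup.mk x : G ⧸ K)) (s := B + fs K)
    (t := B.image (fun x => (QuotientAddGroup.mk x : G ⧸ K))) (by
      intro x hx
      obtain ⟨b, hb, k, hk, rfl⟩ := Finset.mem_add.1 (Finset.mem_coe.1 hx)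
      refine Finset.mem_coe.2 (Finset.mem_image.2 ⟨b, hb, ?_⟩)
      rw [QuotientAddGroup.eq]
      simpa using mem_fs.1 hk)
  rw [h1, Finset.sum_const_nat (m := (fs K).card)]
  · rfl
  · intro q hq
    obtain ⟨b, hb, rfl⟩ := Finset.mem_image.1 hq
    refine (Finset.card_bij (fun k _ => b + k) ?_ ?_ ?_).symm
    · intro k hk
      refine Finset.mem_filter.2 ⟨Finset.add_mem_add hb hk, ?_⟩
      symm
      rw [QuotientAddGroup.eq]
      simpa using mem_fs.1 hk
    · intro k _ k' _ h
      exact add_left_cancel h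
    · intro x hx
      have h2 := (Finset.mem_filter.1 hx).2
      refine ⟨x - b, ?_, by abel⟩
      rw [mem_fs]
      have h3 := h2.symm
      rw [QuotientAddGroup.eq] at h3
      rwa [neg_add_eq_sub] at h3

theorem ncl_pos (K : AddSubgroup G) (B : Finset G) (h : B.Nonempty) : 1 ≤ ncl K B :=
  Finset.card_pos.2 (h.image _)

theorem ncl_translate (K : AddSubgroup G) (B : Finset G) (t : G) :
    ncl K (B.image (fun x => x - t)) = ncl K B := by
  unfold ncl
  rw [Finset.image_image]
  have : (B.image ((fun x => (QuotientAddGroup.mk x : G ⧸ K)) ∘ fun x => x - t)) =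
      (B.image (fun x => (QuotientAddGroup.mk x : G ⧸ K))).image
        (fun q => q - (QuotientAddGroup.mk t : G ⧸ K)) := by
    rw [Finset.image_image]
    rfl
  rw [this, Finset.card_image_of_injective _ (sub_left_injective)]

theorem nat_card_fs (K : AddSubgroup G) : Nat.card K = (fs K).card := by
  rw [← SetLike.coe_sort_coe, Nat.card_coe_set_eq, ← Set.ncard_coe_finset]
  congr 1
  ext x
  simp [mem_fs]

theorem rel_card (S0 S1 : AddSubgroup G) (h : S0 ≤ S1) :
    S0.relIndex S1 * (fs S0).card = (fs S1).card := by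
  have := AddSubgroup.relIndex_mul_relIndex ⊥ S0 S1 bot_le h
  rw [AddSubgroup.relIndex_bot_left, AddSubgroup.relIndex_bot_left, nat_card_fs, nat_card_fs]
    at this
  rw [mul_comm]
  exact this

theorem fs_add_fs (K : AddSubgroup G) : fs K + fs K = fs K := by
  ext x
  rw [Finset.mem_add]
  constructor
  · rintro ⟨a, ha, b, hb, rfl⟩
    exact mem_fs.2 (K.add_mem (mem_fs.1 ha) (mem_fs.1 hb))
  · intro hx
    exact ⟨x, hx, 0, mem_fs.2 K.zero_mem, add_zero x⟩

/-- a set is periodic under its stabiliser -/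
theorem add_fs_of_le (K : AddSubgroup G) (C : Finset G) (h : K ≤ stab C) : C + fs K = C := by
  ext x
  rw [Finset.mem_add]
  constructor
  · rintro ⟨a, ha, b, hb, rfl⟩
    exact stab_add (h (mem_fs.1 hb)) ha
  · intro hx
    exact ⟨x, hx, 0, mem_fs.2 K.zero_mem, add_zero x⟩

theorem le_stab (K : AddSubgroup G) (C : Finset G) : K ≤ stab (fs K + C) := by
  intro g hg
  refine mem_stab_of_forall fun x hx => ?_
  obtain ⟨a, ha, b, hb, rfl⟩ := Finset.mem_add.1 hx
  refine Finset.mem_add.2 ⟨a + g, mem_fs.2 (K.add_mem (mem_fs.1 ha) hg), b, hb, ?_⟩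
  abel

theorem stab_le_add (C D : Finset G) : stab C ≤ stab (D + C) := by
  intro g hg
  refine mem_stab_of_forall fun x hx => ?_
  obtain ⟨a, ha, b, hb, rfl⟩ := Finset.mem_add.1 hx
  exact Finset.mem_add.2 ⟨a, ha, b + g, stab_add hg hb, by abel⟩

/-- Kneser for several sets -/
theorem kneser_many (K : AddSubgroup G) (B : V → Finset G) (Z : Finset V)
    (hB : ∀ z ∈ Z, (B z).Nonempty) (hK : stab (fs K + ∑ z ∈ Z, B z) = K) :
    (fs K).card + ∑ z ∈ Z, (ncl K (B z) - 1) * (fs K).card ≤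
      (fs K + ∑ z ∈ Z, B z).card := by
  induction Z using Finset.induction_on with
  | empty => simp
  | insert z0 Z hz0 ih =>
    have hz : (B z0).Nonempty := hB z0 (Finset.mem_insert_self _ _)
    have hZ : ∀ z ∈ Z, (B z).Nonempty := fun z h => hB z (Finset.mem_insert_of_mem h)
    rw [Finset.sum_insert hz0, Finset.sum_insert hz0]
    rw [Finset.sum_insert hz0] at hK
    set D := fs K + ∑ z ∈ Z, B z with hD
    have e1 : fs K + (B z0 + ∑ z ∈ Z, B z) = B z0 + D := by
      rw [hD]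
      abel
    rw [e1] at hK ⊢
    have hDs : stab D = K := by
      refine le_antisymm ?_ (le_stab K _)
      rw [← hK]
      exact (stab_le_add D (B z0))
    have hDne : D.Nonempty := by
      refine (fs_nonempty K).add ?_
      have : ∀ Y : Finset V, (∀ z ∈ Y, (B z).Nonempty) → (∑ z ∈ Y, B z).Nonempty := by
        intro Y hY
        refine ⟨∑ z ∈ Y, (if h : (B z).Nonempty then h.choose else 0),
          (mem_sum Y B _).2 ⟨_, fun z hz' => ?_, rfl⟩⟩
        rw [dif_pos (hY z hz')]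
        exact (hY z hz').choose_spec
      exact this Z hZ
    have h1 := ih hZ hDs
    have h2 := kneser' (B z0) D hz hDne
    rw [hK, add_fs_of_le K D hDs.ge, card_add_fs] at h2
    have h3 := ncl_pos K (B z0) hz
    obtain ⟨n, hn⟩ := Nat.exists_eq_add_of_le h3
    rw [hn] at h2 ⊢
    rw [Nat.add_sub_cancel_left]
    nlinarith

/-- the full family covers -/
theorem full (S0 S1 : AddSubgroup G) (h01 : S0 ≤ S1) (Z : Finset V) (A : V → Finset G)
    (hA : ∀ z ∈ Z, (A z).Nonempty ∧ Tc S1 (A z))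
    (hR : ∀ R : AddSubgroup G, S0 ≤ R → R < S1 →
      R.relIndex S1 ≤ 1 + ∑ z ∈ Z, (ncl R (A z) - 1))
    (r0 : V → G) (hr0 : ∀ z ∈ Z, r0 z ∈ A z) :
    fs S0 + ∑ z ∈ Z, (A z).image (fun x => x - r0 z) = fs S1 := by
  set B : V → Finset G := fun z => (A z).image (fun x => x - r0 z) with hBdef
  have hB0 : ∀ z ∈ Z, (0 : G) ∈ B z := fun z hz =>
    Finset.mem_image.2 ⟨r0 z, hr0 z hz, sub_self _⟩
  have hBS : ∀ z ∈ Z, ∀ x ∈ B z, x ∈ S1 := by
    intro z hz x hx
    obtain ⟨y, hy, rfl⟩ := Finset.mem_image.1 hx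
    exact (hA z hz).2 y hy _ (hr0 z hz)
  set C := fs S0 + ∑ z ∈ Z, B z with hC
  have hC0 : (0 : G) ∈ C := by
    refine Finset.mem_add.2 ⟨0, mem_fs.2 S0.zero_mem, 0, ?_, add_zero 0⟩
    exact (mem_sum Z B 0).2 ⟨fun _ => 0, hB0, by simp⟩
  have hCS : C ⊆ fs S1 := by
    intro x hx
    obtain ⟨a, ha, b, hb, rfl⟩ := Finset.mem_add.1 hx
    obtain ⟨r, hr, rfl⟩ := (mem_sum Z B b).1 hb
    exact mem_fs.2 (S1.add_mem (h01 (mem_fs.1 ha))
      (S1.sum_mem fun z hz => hBS z hz _ (hr z hz)))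
  set K := stab C with hKdef
  have hK0 : S0 ≤ K := le_stab S0 _
  have hK1 : K ≤ S1 := by
    intro g hg
    have := stab_add hg hC0
    rw [zero_add] at this
    exact mem_fs.1 (hCS this)
  have hKC : fs K + ∑ z ∈ Z, B z = C := by
    have e1 : C = C + fs K := (add_fs_of_le K C le_rfl).symm
    have e2 : fs S0 + fs K = fs K := by
      ext x
      rw [Finset.mem_add]
      constructor
      · rintro ⟨a, ha, b, hb, rfl⟩
        exact mem_fs.2 (K.add_mem (hK0 (mem_fs.1 ha)) (mem_fs.1 hb))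
      · intro hx
        exact ⟨0, mem_fs.2 S0.zero_mem, x, hx, zero_add x⟩
    rw [e1, hC, add_right_comm, e2]
  by_cases hKS : K = S1
  · refine Finset.Subset.antisymm hCS ?_
    intro x hx
    have h1 : x ∈ stab C := by
      rw [← hKdef, hKS]
      exact mem_fs.1 hx
    have := stab_add h1 hC0
    rwa [zero_add] at this
  · have hlt : K < S1 := lt_of_le_of_ne hK1 hKS
    have h1 := hR K hK0 hlt
    have h2 := kneser_many K B Z (fun z hz => ⟨0, hB0 z hz⟩) (by rw [hKC])
    rw [hKC] at h2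
    have h3 := rel_card K S1 hK1
    have h4 : ∑ z ∈ Z, (ncl K (B z) - 1) * (fs K).card =
        (∑ z ∈ Z, (ncl K (A z) - 1)) * (fs K).card := by
      rw [Finset.sum_mul]
      refine Finset.sum_congr rfl fun z _ => ?_
      rw [hBdef]
      simp only
      rw [ncl_translate]
    rw [h4] at h2
    refine Finset.eq_of_subset_of_card_le hCS ?_
    rw [← h3]
    calc K.relIndex S1 * (fs K).card
        ≤ (1 + ∑ z ∈ Z, (ncl K (A z) - 1)) * (fs K).card := Nat.mul_le_mul_right _ h1
      _ ≤ _ := by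
        rw [add_mul, one_mul]
        exact h2

/-- from the sumset to a cover -/
theorem cov_of_full (S0 S1 : AddSubgroup G) (Z : Finset V) (A : V → Finset G)
    (hA : ∀ z ∈ Z, (A z).Nonempty ∧ Tc S1 (A z)) (r0 : V → G) (hr0 : ∀ z ∈ Z, r0 z ∈ A z)
    (h : fs S0 + ∑ z ∈ Z, (A z).image (fun x => x - r0 z) = fs S1) : Cov S0 S1 Z A := by
  intro r1 hr1 s hs
  have h1 : s - ∑ z ∈ Z, r0 z ∈ S1 := by
    have e : s - ∑ z ∈ Z, r0 z = (s - ∑ z ∈ Z, r1 z) + ∑ z ∈ Z, (r1 z - r0 z) := by
      rw [Finset.sum_sub_distrib]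
      abel
    rw [e]
    exact S1.add_mem hs (S1.sum_mem fun z hz => (hA z hz).2 _ (hr1 z hz) _ (hr0 z hz))
  have h2 := mem_fs.2 h1
  rw [← h] at h2
  obtain ⟨k, hk, b, hb, hkb⟩ := Finset.mem_add.1 h2
  obtain ⟨r, hr, rfl⟩ := (mem_sum _ _ _).1 hb
  refine ⟨_, ⟨fun z => r z + r0 z, fun z hz => ?_, rfl⟩, ?_⟩
  · obtain ⟨y, hy, hyr⟩ := Finset.mem_image.1 (hr z hz)
    simp only
    rw [← hyr, sub_add_cancel]
    exact hy
  · rw [Finset.sum_add_distrib]
    have e : s - (∑ z ∈ Z, r z + ∑ z ∈ Z, r0 z) = k := by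
      rw [← sub_sub, sub_right_comm, ← hkb]
      abel
    rw [e]
    exact mem_fs.1 hk

/-- a small subfamily with the same sumset -/
theorem sub_family (S0 : AddSubgroup G) (B : V → Finset G) (Z : Finset V)
    (hB : ∀ z ∈ Z, (0 : G) ∈ B z) :
    ∃ Z' ⊆ Z, fs S0 + ∑ z ∈ Z', B z = fs S0 + ∑ z ∈ Z, B z ∧
      (Z'.card + 1) * (fs S0).card ≤ (fs S0 + ∑ z ∈ Z, B z).card := by
  induction Z using Finset.induction_on with
  | empty => exact ⟨∅, Finset.Subset.refl _, rfl, by simp⟩
  | insert z0 Z hz0 ih =>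
    obtain ⟨Z', hZ', h1, h2⟩ := ih fun z h => hB z (Finset.mem_insert_of_mem h)
    have hz : (0 : G) ∈ B z0 := hB z0 (Finset.mem_insert_self _ _)
    rw [Finset.sum_insert hz0]
    set D := fs S0 + ∑ z ∈ Z, B z with hD
    have e1 : fs S0 + (B z0 + ∑ z ∈ Z, B z) = D + B z0 := by
      rw [hD]
      abel
    rw [e1]
    have hsub : D ⊆ D + B z0 := fun x hx => Finset.mem_add.2 ⟨x, hx, 0, hz, add_zero x⟩
    by_cases hE : D + B z0 = D
    · exact ⟨Z', hZ'.trans (Finset.subset_insert _ _), by rw [h1, hE], by rw [hE]; exact h2⟩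
    · have hz' : z0 ∉ Z' := fun h => hz0 (hZ' h)
      refine ⟨insert z0 Z', Finset.insert_subset_insert _ hZ', ?_, ?_⟩
      · rw [Finset.sum_insert hz', ← h1]
        abel
      · rw [Finset.card_insert_of_notMem hz']
        have p1 : D + fs S0 = D := add_fs_of_le S0 D (le_stab S0 _)
        have p2 : (D + B z0) + fs S0 = D + B z0 := by
          rw [add_right_comm, p1]
        have c1 := card_add_fs S0 D
        have c2 := card_add_fs S0 (D + B z0)
        rw [p1] at c1
        rw [p2] at c2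
        have hlt : D.card < (D + B z0).card :=
          Finset.card_lt_card (Finset.ssubset_iff_subset_ne.2 ⟨hsub, fun h => hE h.symm⟩)
        have hp := fs_card_pos S0
        have h5 : ncl S0 D + 1 ≤ ncl S0 (D + B z0) := by
          rw [c1, c2] at hlt
          exact lt_of_mul_lt_mul_right hlt (Nat.zero_le _)
        have h6 : Z'.card + 1 ≤ ncl S0 D := by
          rw [c1] at h2
          exact le_of_mul_le_mul_right h2 hp
        rw [c2]
        exact Nat.mul_le_mul_right _ (by omega)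

end Kn

theorem k2 : S_K2 := by
  intro V G _ _ S0 S1 h01 Z A hA hR
  set r0 : V → G := fun z => if h : (A z).Nonempty then h.choose else 0 with hr0def
  have hr0 : ∀ z ∈ Z, r0 z ∈ A z := by
    intro z hz
    rw [hr0def]
    simp only
    rw [dif_pos (hA z hz).1]
    exact (hA z hz).1.choose_spec
  have h1 := full S0 S1 h01 Z A hA hR r0 hr0
  obtain ⟨Z', hZ', h2, h3⟩ := sub_family S0 (fun z => (A z).image (fun x => x - r0 z)) Z
    (fun z hz => Finset.mem_image.2 ⟨r0 z, hr0 z hz, sub_self _⟩)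
  rw [h1] at h2 h3
  refine ⟨Z', hZ', ?_, ?_⟩
  · rw [← rel_card S0 S1 h01] at h3
    exact le_of_mul_le_mul_right h3 (fs_card_pos S0)
  · exact cov_of_full S0 S1 Z' A (fun z hz => hA z (hZ' hz)) r0 (fun z hz => hr0 z (hZ' hz)) h2

theorem c3 : S_C3 := by
  intro V G _ _ M hM Z A hA h2
  set r0 : V → G := fun z => if h : (A z).Nonempty then h.choose else 0 with hr0def
  have hr0 : ∀ z ∈ Z, r0 z ∈ A z := by
    intro z hz
    rw [hr0def]
    simp only
    rw [dif_pos (hA z hz).1]
    exact (hA z hz).1.choose_spec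
  refine cov_of_full ⊥ M Z A hA r0 hr0 (full ⊥ M bot_le Z A hA ?_ r0 hr0)
  intro R _ hRM
  have hcR : Nat.card R * R.relIndex M = 3 := by
    have := AddSubgroup.relIndex_mul_relIndex ⊥ R M bot_le hRM.le
    rw [AddSubgroup.relIndex_bot_left, AddSubgroup.relIndex_bot_left, hM] at this
    exact this
  have hR1 : Nat.card R = 1 := by
    have hd : Nat.card R ∣ 3 := ⟨_, hcR.symm⟩
    rcases (Nat.dvd_prime Nat.prime_three).1 hd with h | h
    · exact h
    · exfalso
      rw [h] at hcR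
      have h4 : R.relIndex M = 1 := by omega
      rw [AddSubgroup.relIndex_eq_one] at h4
      exact absurd h4 (not_le_of_gt hRM)
  have hbot : R = ⊥ := AddSubgroup.card_eq_one.1 hR1
  subst hbot
  have hcard : ∀ B : Finset G, ncl (⊥ : AddSubgroup G) B = B.card := by
    intro B
    unfold ncl
    refine Finset.card_image_of_injective _ ?_
    intro x y hxy
    simp only at hxy
    rw [QuotientAddGroup.eq] at hxy
    have := AddSubgroup.mem_bot.1 hxy
    rw [neg_add_eq_zero] at this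
    exact this
  simp only [hcard]
  rw [hR1] at hcR
  omega

end Pool.Agent.W509.ZT
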